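import Pool.Agent.helper957_gc.W12

set_option autoImplicit false

/-!
Cohomological dimensions of Coxeter groups: if a torsion-free subgroup `Γ` of finite index in a
finitely generated Coxeter group has `cd_ℚ Γ ≤ 2`, then `cd_ℤ Γ ≤ 3`.
-/

namespace Pool.Agent.Results.MP_db6a6f_al.CdQtwoCdZthree

/-- The cohomological dimension of the group `G` over the ring `k` is at most `n`: the group
cohomology `H^m(G; A)` vanishes for every `m > n` and every `k`-linear representation `A`. -/
def CdLE (k G : Type) [CommRing k] [Group G] (n : ℕ) : Prop :=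
  ∀ m : ℕ, n < m → ∀ A : Rep.{0} k G, Subsingleton (groupCohomology A m)

/-- Let `(W, S)` be a Coxeter system with `S` finite and `Γ` a torsion-free subgroup of finite
index in `W`. If `cd_ℚ Γ ≤ 2`, then `cd_ℤ Γ ≤ 3`. -/
theorem result {B W : Type} [Finite B] [Group W] {M : CoxeterMatrix B}
    (cs : CoxeterSystem M W) (Γ : Subgroup W) [Γ.FiniteIndex]
    (hΓ : ∀ γ ∈ Γ, IsOfFinOrder γ → γ = 1) (h : CdLE ℚ Γ 2) : CdLE ℤ Γ 3 := by
  intro n hn A
  exact Cox957.final cs Γ hΓ (fun m hm A => h m hm A) n hn A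

end Pool.Agent.Results.MP_db6a6f_al.CdQtwoCdZthree
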